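import Pool.Agent.Helper84_TMP.Stmt

/-!
# PLN: the Plancherel upper bound
-/

open scoped BigOperators

namespace Pool.Agent.TMP.H6

open Pool.Agent.DEN Pool.Agent.TMP

/-- A correlation of a finitely supported function is bounded by its squared norm. -/
theorem corr_le {Q : Type} [AddCommGroup Q] (S : Q → ℂ) (hS : {l | S l ≠ 0}.Finite) (l : Q) :
    ‖∑ᶠ m, S m * (starRingEnd ℂ) (S (m - l))‖ ≤ ∑ᶠ m, ‖S m‖ ^ 2 := by
  classical
  have hB : ∑ᶠ m, ‖S m‖ ^ 2 = ∑ m ∈ hS.toFinset, ‖S m‖ ^ 2 := by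
    refine finsum_eq_sum_of_support_subset _ ?_
    intro m hm
    rw [Function.mem_support] at hm
    rw [Finset.mem_coe, Set.Finite.mem_toFinset, Set.mem_ofPred_eq]
    intro h0
    exact hm (by rw [h0]; simp)
  have hA : ∑ᶠ m, S m * (starRingEnd ℂ) (S (m - l)) =
      ∑ m ∈ hS.toFinset, S m * (starRingEnd ℂ) (S (m - l)) := by
    refine finsum_eq_sum_of_support_subset _ ?_
    intro m hm
    rw [Function.mem_support] at hm
    rw [Finset.mem_coe, Set.Finite.mem_toFinset, Set.mem_ofPred_eq]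
    exact left_ne_zero_of_mul hm
  rw [hA, hB]
  have h1 : ∑ m ∈ hS.toFinset, ‖S (m - l)‖ ^ 2 ≤ ∑ m ∈ hS.toFinset, ‖S m‖ ^ 2 := by
    have h2 : ∑ m ∈ hS.toFinset, ‖S (m - l)‖ ^ 2 =
        ∑ x ∈ hS.toFinset.image (fun m => m - l), ‖S x‖ ^ 2 := by
      rw [Finset.sum_image]
      intro a _ b _ h
      exact sub_left_injective h
    rw [h2]
    have h3 : ∑ x ∈ hS.toFinset.image (fun m => m - l), ‖S x‖ ^ 2 =
        ∑ x ∈ (hS.toFinset.image (fun m => m - l)) ∩ hS.toFinset, ‖S x‖ ^ 2 := by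
      refine (Finset.sum_subset Finset.inter_subset_left ?_).symm
      intro x hx hx2
      have h4 : x ∉ hS.toFinset := fun h => hx2 (Finset.mem_inter.mpr ⟨hx, h⟩)
      rw [Set.Finite.mem_toFinset, Set.mem_ofPred_eq, not_not] at h4
      rw [h4]
      simp
    rw [h3]
    exact Finset.sum_le_sum_of_subset_of_nonneg Finset.inter_subset_right
      fun _ _ _ => by positivity
  have h5 : ‖∑ m ∈ hS.toFinset, S m * (starRingEnd ℂ) (S (m - l))‖ ≤
      ∑ m ∈ hS.toFinset, (‖S m‖ ^ 2 + ‖S (m - l)‖ ^ 2) / 2 := by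
    refine (norm_sum_le _ _).trans (Finset.sum_le_sum fun m _ => ?_)
    rw [norm_mul, RCLike.norm_conj]
    nlinarith [sq_nonneg (‖S m‖ - ‖S (m - l)‖)]
  rw [← Finset.sum_div, Finset.sum_add_distrib] at h5
  linarith

theorem pln (hDel : DelStmt) (hInv : InvStmt) (hSmu : SmuStmt) (hKer : KerStmt)
    (hFla : FlaStmt) : PlnStmt := by
  classical
  intro r C hC K _ _ k hk
  have hq : (1 : ℝ) < (Nat.card K : ℝ) := by
    exact_mod_cast Finite.one_lt_card
  obtain ⟨D, hD⟩ := hDel r C hC (Nat.card K : ℝ) hq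
  obtain ⟨-, hmul, hst, -, -, -, hnorm, -⟩ := hKer r C hC K
  have hks := hst k hk
  have hkk := hmul k (kst k) hk hks
  have hI := hInv r C hC K D hD _ hkk
  rw [hnorm k hk] at hI
  have hfin := (hSmu r C hC K).1 k hk
  have hfin2 := (hSmu r C hC K).1 _ hkk
  set B : ℝ := ∑ᶠ l, ‖sat hC k l‖ ^ 2 with hB
  have hbd : ∀ l, ‖sat hC (kmul k (kst k)) l‖ ≤ B := by
    intro l
    rw [(hSmu r C hC K).2.1 k (kst k) hk hks l]
    have h1 : ∀ m, sat hC k m * sat hC (kst k) (l - m) =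
        sat hC k m * (starRingEnd ℂ) (sat hC k (m - l)) := by
      intro m
      rw [(hFla r C hC K k hk).1 (l - m), neg_sub]
    rw [finsum_congr h1]
    exact corr_le _ hfin l
  have hsum : ∑ᶠ l, D l * sat hC (kmul k (kst k)) l =
      ∑ l ∈ hfin2.toFinset, D l * sat hC (kmul k (kst k)) l := by
    refine finsum_eq_sum_of_support_subset _ ?_
    intro m hm
    rw [Function.mem_support] at hm
    rw [Finset.mem_coe, Set.Finite.mem_toFinset, Set.mem_ofPred_eq]
    exact right_ne_zero_of_mul hm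
  have hB0 : 0 ≤ B := finsum_nonneg fun l => by positivity
  have h2 : ‖((∑ᶠ y, ‖k (oo C K) y‖ ^ 2 : ℝ) : ℂ)‖ ≤ 2 ^ Nat.card (Rt C) * B := by
    rw [hI, hsum]
    refine (norm_sum_le _ _).trans ?_
    calc ∑ l ∈ hfin2.toFinset, ‖D l * sat hC (kmul k (kst k)) l‖
        ≤ ∑ l ∈ hfin2.toFinset, ‖D l‖ * B := by
          refine Finset.sum_le_sum fun l _ => ?_
          rw [norm_mul]
          exact mul_le_mul_of_nonneg_left (hbd l) (norm_nonneg _)
      _ = (∑ l ∈ hfin2.toFinset, ‖D l‖) * B := by rw [Finset.sum_mul]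
      _ ≤ 2 ^ Nat.card (Rt C) * B := mul_le_mul_of_nonneg_right (hD.sum _) hB0
  have h3 : (0 : ℝ) ≤ ∑ᶠ y, ‖k (oo C K) y‖ ^ 2 := finsum_nonneg fun y => by positivity
  rw [Complex.norm_real, Real.norm_eq_abs, abs_of_nonneg h3] at h2
  exact h2

end Pool.Agent.TMP.H6
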